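import Mathlib

/-!
# Friends-and-strangers graphs of trees can have components of exponential diameter

For every `k` there are a tree `T` and a graph `Y` with `8 k + 1` vertices such that some component of
`FS(T, Y)` has diameter at least `2 ^ k - 1` (`exponential`). So the diameters are not polynomially
bounded (`result`).

*Construction.* We regard the vertices of `T` as tokens on the vertices of `Y` (the places): two
tokens which are adjacent in `T` may exchange their places if these are adjacent in `Y`. The tokens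
are the walker `c = none`, the root of `T`; for each of the `k` gadgets a key `h = (i, 1)` and five
fillers, which are adjacent to `c`; and two obstacles `(i, 3)`, `(i, 4)`, which are adjacent to the key
`(i, 1)` only. (The tokens are named by their places at the beginning.) The places of the gadget `i`
are: a triangle `0, 1, 2` (the switch), two doors `3` and `4`, joined to the places `1` and `2` of the
switch, and a track `7 - 5 - 3`, `7 - 6 - 4` through the doors. The first door leads to the
track of the next gadget and the second one to the switch of the next gadget; the place `none` is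
joined to the switch and to the track of the gadget `0`.

If the key is at the place `1` or at the door `3`, the first door can be opened (the key and the
obstacle exchange their places) and the second one is closed by its obstacle; this is the value `false`
of the bit. In the other position of the key the bit is `true`. The walker changes the bit by going
round the triangle, and it cannot do this from anywhere else. So bit `j` can be changed if and
only if the bit `j - 1` is `true` and the bits before it are `false`. These are the rules of the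
Gray code (of the puzzle of the Chinese rings), and it takes `2 ^ k - 1` changes to get from
`0 ... 0` to `0 ... 0 1`.
-/

set_option autoImplicit false

namespace Pool.Agent.Results.MP_5b8c2d_co.ExponentialDiameter

/-- The friends-and-strangers graph of `X` and `Y`: the vertices are the bijections from the vertices
of `X` to the vertices of `Y`; `s` and `t` are adjacent when there is an edge `a b` of `X` such that
`s a`, `s b` are adjacent in `Y`, and `t` is obtained from `s` by exchanging the values at `a`, `b`. -/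
def FS {α β : Type} (X : SimpleGraph α) (Y : SimpleGraph β) : SimpleGraph (α ≃ β) where
  Adj s t := ∃ a b : α, X.Adj a b ∧ Y.Adj (s a) (s b) ∧ t a = s b ∧ t b = s a ∧
    ∀ v : α, v ≠ a → v ≠ b → t v = s v
  symm := by
    constructor
    rintro s t ⟨a, b, h1, h2, h3, h4, h5⟩
    exact ⟨a, b, h1, by rw [h3, h4]; exact h2.symm, h4.symm, h3.symm,
      fun v ha hb => (h5 v ha hb).symm⟩
  loopless := by
    constructor
    rintro s ⟨a, b, h1, _, h3, _, _⟩
    exact h1.ne (s.injective h3)

/-! ### The rank of a configuration of bits (Gray code) -/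

/-- position of the first `m` bits in the Gray code -/
def rank : ℕ → (ℕ → Bool) → ℤ
  | 0, _ => 0
  | m + 1, b => if b m then 2 ^ (m + 1) - 1 - rank m b else rank m b

lemma rank_congr {m : ℕ} {b b' : ℕ → Bool} (h : ∀ i < m, b i = b' i) : rank m b = rank m b' := by
  induction m with
  | zero => rfl
  | succ m ih =>
    rw [rank, rank, h m (Nat.lt_succ_self m), ih fun i hi => h i (Nat.lt_succ_of_lt hi)]

lemma rank_zero {m : ℕ} {b : ℕ → Bool} (h : ∀ i < m, b i = false) : rank m b = 0 := by
  induction m with
  | zero => rfl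
  | succ m ih =>
    rw [rank, h m (Nat.lt_succ_self m), ih fun i hi => h i (Nat.lt_succ_of_lt hi)]
    rfl

/-- bit `j` may be changed -/
def Adm (b : ℕ → Bool) (j : ℕ) : Prop :=
  (∀ i, i + 1 = j → b i = true) ∧ ∀ i, i + 1 < j → b i = false

lemma rank_adm {b : ℕ → Bool} {j : ℕ} (h : Adm b j) : rank j b = 2 ^ j - 1 := by
  cases j with
  | zero => rfl
  | succ i =>
    rw [rank, h.1 i rfl, rank_zero fun l hl => h.2 l (by omega)]
    simp

/-- change of bit `j` -/
def flip (b : ℕ → Bool) (j : ℕ) : ℕ → Bool := Function.update b j (!b j)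

lemma flip_same (b : ℕ → Bool) (j : ℕ) : flip b j j = !b j := by simp [flip]

lemma flip_ne (b : ℕ → Bool) {i j : ℕ} (h : i ≠ j) : flip b j i = b i := by simp [flip, h]

lemma rank_flip {b : ℕ → Bool} {j : ℕ} (h : Adm b j) (m : ℕ) :
    |rank m (flip b j) - rank m b| ≤ 1 := by
  induction m with
  | zero => simp [rank]
  | succ m ih =>
    rcases lt_trichotomy m j with hm | hm | hm
    · have : rank (m + 1) (flip b j) = rank (m + 1) b :=
        rank_congr fun i hi => flip_ne b (by omega)
      rw [this]; simp
    · subst hm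
      have h1 : rank m (flip b m) = rank m b := rank_congr fun i hi => flip_ne b (by omega)
      have h2 := rank_adm h
      have h3 : (2 : ℤ) ^ (m + 1) = 2 * 2 ^ m := by ring
      rw [rank, rank, h1, flip_same, h2, h3]
      cases b m
      · simp only [Bool.not_false, if_true, Bool.false_eq_true, if_false]
        rw [abs_le]; constructor <;> linarith
      · simp only [Bool.not_true, Bool.false_eq_true, if_false, if_true]
        rw [abs_le]; constructor <;> linarith
    · rw [rank, rank, flip_ne b (by omega : m ≠ j)]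
      cases b m
      · simpa using ih
      · simp only [if_true]
        rw [abs_le] at ih ⊢
        constructor <;> linarith [ih.1, ih.2]

/-! ### The tree, the graph, the invariant -/

/-- the vertices -/
abbrev V (k : ℕ) : Type := Option (Fin k × Fin 8)

/-- the parent function of the tree -/
def par {k : ℕ} : V k → V k
  | none => none
  | some (i, l) => if l = 3 ∨ l = 4 then some (i, 1) else none

/-- the tree -/
def T (k : ℕ) : SimpleGraph (V k) := SimpleGraph.fromRel fun a b => par a = b

/-- the edges inside the gadgets: switch `0, 1, 2`, doors `3`, `4`, track `7, 5, 6` -/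
def le (l l' : Fin 8) : Bool :=
  decide ((l, l') ∈ ([(0, 1), (0, 2), (1, 2), (1, 3), (2, 4), (7, 5), (7, 6), (5, 3), (6, 4)] :
    List (Fin 8 × Fin 8)))

/-- the edges of the graph in one direction -/
def yr {k : ℕ} : V k → V k → Prop
  | none, some (i, l) => i.val = 0 ∧ (l = 0 ∨ l = 7)
  | some (i, l), some (j, l') => (i = j ∧ le l l' = true) ∨
      (i.val + 1 = j.val ∧ ((l = 3 ∧ l' = 7) ∨ (l = 4 ∧ l' = 0)))
  | _, none => False

/-- the graph -/
def Y (k : ℕ) : SimpleGraph (V k) := SimpleGraph.fromRel yr

/-- the allowed local configurations (bit, place of the key, places of the two obstacles);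
`m < 8`: the walker is at the place `m` of the gadget; `m = 8`: the walker has not passed the gadget;
`m = 9, 10`: it has passed the gadget through the first or the second door -/
def okl (m : Fin 11) : List (Bool × Fin 8 × Fin 8 × Fin 8) :=
  if m = 1 then [(false, 0, 3, 4), (true, 2, 3, 4), (true, 4, 3, 2)]
  else if m = 2 then [(true, 0, 3, 4), (false, 1, 3, 4), (false, 3, 1, 4)]
  else if m = 3 ∨ m = 9 then [(false, 5, 1, 4)]
  else if m = 4 ∨ m = 10 then [(true, 6, 3, 2)]
  else [(false, 1, 3, 4), (false, 3, 1, 4), (true, 2, 3, 4), (true, 4, 3, 2)]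

/-- the mode of the gadget `i` when the walker is at the place `L` -/
def mode {k : ℕ} (L : V k) (i : Fin k) : Fin 11 :=
  match L with
  | none => 8
  | some (j, l) => if i.val = j.val then ⟨l.val, by omega⟩ else if j.val < i.val then 8
      else if l.val ≤ 2 ∧ i.val + 1 = j.val then 10 else 9

/-- adjacency inside the gadgets -/
def adjl (l l' : Fin 8) : Bool := le l l' || le l' l

lemma swap_s : ∀ m : Fin 11, ∀ x ∈ okl m, adjl x.2.2.1 x.2.1 = true →
    (x.1, x.2.2.1, x.2.1, x.2.2.2) ∈ okl m := by decide

lemma swap_t : ∀ m : Fin 11, ∀ x ∈ okl m, adjl x.2.2.2 x.2.1 = true →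
    (x.1, x.2.2.2, x.2.2.1, x.2.1) ∈ okl m := by decide

lemma swap_c : ∀ l : Fin 8, ∀ x ∈ okl ⟨l.val, by omega⟩, adjl x.2.1 l = true →
    (x.2.1.val ≤ 2 ↔ l.val ≤ 2) ∧ ∃ b : Bool, (b, l, x.2.2.1, x.2.2.2) ∈ okl ⟨x.2.1.val, by omega⟩ ∧
      (b = x.1 ∨ (b = !x.1 ∧ l.val ≤ 2)) := by decide

lemma move_c : ∀ l l' : Fin 8, ∀ x ∈ okl ⟨l.val, by omega⟩, adjl l l' = true →
    l' ≠ x.2.1 → l' ≠ x.2.2.1 → l' ≠ x.2.2.2 →
    (l'.val ≤ 2 ↔ l.val ≤ 2) ∧ ∃ b : Bool, (b, x.2.1, x.2.2.1, x.2.2.2) ∈ okl ⟨l'.val, by omega⟩ ∧
      (b = x.1 ∨ (b = !x.1 ∧ l.val ≤ 2)) := by decide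

/-- no change of bits, or the change of a bit that may be changed -/
def Tog (b b' : ℕ → Bool) : Prop := b' = b ∨ ∃ j, Adm b j ∧ b' = flip b j

lemma mode_self {k : ℕ} (j i : Fin k) (l : Fin 8) (h : i.val = j.val) :
    mode (some (j, l)) i = ⟨l.val, by omega⟩ := by
  simp [mode, h]

lemma mode_ne {k : ℕ} (j i : Fin k) (l l' : Fin 8) (h : i.val ≠ j.val)
    (hl : l'.val ≤ 2 ↔ l.val ≤ 2) : mode (some (j, l')) i = mode (some (j, l)) i := by
  simp [mode, h, hl]

lemma mode_after {k : ℕ} (j i : Fin k) (l : Fin 8) (h : j.val < i.val) :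
    mode (some (j, l)) i = 8 := by
  have h1 : i.val ≠ j.val := by omega
  simp [mode, h1, h]

lemma mode_nine {k : ℕ} (j i : Fin k) (l : Fin 8) (h : i.val < j.val)
    (h2 : ¬ (l.val ≤ 2 ∧ i.val + 1 = j.val)) : mode (some (j, l)) i = 9 := by
  have h1 : i.val ≠ j.val := by omega
  have h3 : ¬ j.val < i.val := by omega
  simp only [mode, h1, h3, h2, if_false]

lemma mode_ten {k : ℕ} (j i : Fin k) (l : Fin 8)
    (h2 : l.val ≤ 2 ∧ i.val + 1 = j.val) : mode (some (j, l)) i = 10 := by
  have h1 : i.val ≠ j.val := by omega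
  have h3 : ¬ j.val < i.val := by omega
  simp only [mode, h1, h3, h2, if_false, if_true, and_self]

/-- the bits of the gadgets which the walker has passed -/
lemma adm_of {k : ℕ} (b : ℕ → Bool) (h s t : Fin k → Fin 8) (j : Fin k) (l : Fin 8)
    (hok : ∀ i, (b i.val, h i, s i, t i) ∈ okl (mode (some (j, l)) i)) (hl : l.val ≤ 2) :
    Adm b j.val := by
  constructor
  · intro i hi
    have h1 := hok ⟨i, by omega⟩
    rw [mode_ten j ⟨i, by omega⟩ l ⟨hl, hi⟩] at h1
    simp [okl] at h1
    exact h1.1
  · intro i hi
    have h1 := hok ⟨i, by omega⟩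
    rw [mode_nine j ⟨i, by omega⟩ l (by show i < j.val; omega) (by show ¬ (_ ∧ i + 1 = _); omega)] at h1
    simp [okl] at h1
    exact h1.1

lemma cmove {k : ℕ} (L L' : V k) (hY : yr L L' ∨ yr L' L) (b : ℕ → Bool) (h s t : Fin k → Fin 8)
    (hok : ∀ i, (b i.val, h i, s i, t i) ∈ okl (mode L i))
    (hn : ∀ i, L' ≠ some (i, h i) ∧ L' ≠ some (i, s i) ∧ L' ≠ some (i, t i)) :
    ∃ b', Tog b b' ∧ ∀ i : Fin k, (b' i.val, h i, s i, t i) ∈ okl (mode L' i) := by
  have e0 : okl ⟨(0 : Fin 8).val, by decide⟩ = okl 8 := by decide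
  have e7 : okl ⟨(7 : Fin 8).val, by decide⟩ = okl 8 := by decide
  have e3 : okl ⟨(3 : Fin 8).val, by decide⟩ = okl 9 := by decide
  have e4 : okl ⟨(4 : Fin 8).val, by decide⟩ = okl 10 := by decide
  rcases L with _ | ⟨j, l⟩
  · rcases L' with _ | ⟨j', l'⟩
    · rcases hY with h1 | h1 <;> exact absurd h1 (by simp [yr])
    · have h1 : j'.val = 0 ∧ (l' = 0 ∨ l' = 7) := by
        rcases hY with h1 | h1
        · exact h1
        · exact absurd h1 (by simp [yr])
      refine ⟨b, Or.inl rfl, fun i => ?_⟩
      have h2 := hok i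
      have h3 : okl (mode (some (j', l')) i) = okl 8 := by
        by_cases hi : i.val = j'.val
        · rw [mode_self _ _ _ hi]
          rcases h1.2 with rfl | rfl
          · exact e0
          · exact e7
        · rw [mode_after _ _ _ (by omega)]
      rw [h3]
      exact h2
  · rcases L' with _ | ⟨j', l'⟩
    · have h1 : j.val = 0 ∧ (l = 0 ∨ l = 7) := by
        rcases hY with h1 | h1
        · exact absurd h1 (by simp [yr])
        · exact h1
      refine ⟨b, Or.inl rfl, fun i => ?_⟩
      have h2 := hok i
      have h3 : okl (mode (some (j, l)) i) = okl 8 := by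
        by_cases hi : i.val = j.val
        · rw [mode_self _ _ _ hi]
          rcases h1.2 with rfl | rfl
          · exact e0
          · exact e7
        · rw [mode_after _ _ _ (by omega)]
      rw [h3] at h2
      exact h2
    · have hcase : (j = j' ∧ adjl l l' = true) ∨
          (j.val + 1 = j'.val ∧ ((l = 3 ∧ l' = 7) ∨ (l = 4 ∧ l' = 0))) ∨
          (j'.val + 1 = j.val ∧ ((l' = 3 ∧ l = 7) ∨ (l' = 4 ∧ l = 0))) := by
        rcases hY with (⟨h1, h2⟩ | h1) | (⟨h1, h2⟩ | h1)
        · left; exact ⟨h1, by simp [adjl, h2]⟩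
        · right; left; exact h1
        · left; exact ⟨h1.symm, by simp [adjl, h2]⟩
        · right; right; exact h1
      rcases hcase with ⟨rfl, hadj⟩ | ⟨hj, hl⟩ | ⟨hj, hl⟩
      · have h1 := hok j
        rw [mode_self j j l rfl] at h1
        have hn1 := hn j
        obtain ⟨harea, b2, hb2, hb3⟩ := move_c l l' _ h1 hadj
          (fun e => hn1.1 (by rw [e])) (fun e => hn1.2.1 (by rw [e])) (fun e => hn1.2.2 (by rw [e]))
        rcases hb3 with hb3 | ⟨hb3, hl2⟩
        · refine ⟨b, Or.inl rfl, fun i => ?_⟩
          by_cases hi : i = j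
          · subst hi
            rw [mode_self i i l' rfl]
            dsimp only at hb2 hb3
            rw [hb3] at hb2
            exact hb2
          · rw [mode_ne j i l l' (fun e => hi (Fin.ext e)) harea]
            exact hok i
        · refine ⟨flip b j.val, Or.inr ⟨j.val, adm_of b h s t j l hok hl2, rfl⟩, fun i => ?_⟩
          by_cases hi : i = j
          · subst hi
            rw [mode_self i i l' rfl, flip_same]
            dsimp only at hb2 hb3
            rw [hb3] at hb2
            exact hb2
          · rw [mode_ne j i l l' (fun e => hi (Fin.ext e)) harea,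
              flip_ne b (fun e => hi (Fin.ext e))]
            exact hok i
      · refine ⟨b, Or.inl rfl, fun i => ?_⟩
        have h2 := hok i
        have h3 : okl (mode (some (j', l')) i) = okl (mode (some (j, l)) i) := by
          rcases lt_trichotomy i.val j.val with hi | hi | hi
          · rw [mode_nine j' i l' (by omega) (by omega),
              mode_nine j i l hi (by rcases hl with ⟨rfl, rfl⟩ | ⟨rfl, rfl⟩ <;> simp)]
          · rw [mode_self j i l hi]
            rcases hl with ⟨rfl, rfl⟩ | ⟨rfl, rfl⟩
            · rw [mode_nine j' i 7 (by omega) (by simp)]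
              exact e3.symm
            · rw [mode_ten j' i 0 ⟨by simp, by omega⟩]
              exact e4.symm
          · rw [mode_after j i l hi]
            by_cases hi2 : i.val = j'.val
            · rw [mode_self j' i l' hi2]
              rcases hl with ⟨rfl, rfl⟩ | ⟨rfl, rfl⟩
              · exact e7
              · exact e0
            · rw [mode_after j' i l' (by omega)]
        rw [h3]; exact h2
      · refine ⟨b, Or.inl rfl, fun i => ?_⟩
        have h2 := hok i
        have h3 : okl (mode (some (j', l')) i) = okl (mode (some (j, l)) i) := by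
          rcases lt_trichotomy i.val j'.val with hi | hi | hi
          · rw [mode_nine j i l (by omega) (by omega),
              mode_nine j' i l' hi (by rcases hl with ⟨rfl, rfl⟩ | ⟨rfl, rfl⟩ <;> simp)]
          · rw [mode_self j' i l' hi]
            rcases hl with ⟨rfl, rfl⟩ | ⟨rfl, rfl⟩
            · rw [mode_nine j i 7 (by omega) (by simp)]
              exact e3
            · rw [mode_ten j i 0 ⟨by simp, by omega⟩]
              exact e4
          · rw [mode_after j' i l' hi]
            by_cases hi2 : i.val = j.val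
            · rw [mode_self j i l hi2]
              rcases hl with ⟨rfl, rfl⟩ | ⟨rfl, rfl⟩
              · exact e7.symm
              · exact e0.symm
            · rw [mode_after j i l (by omega)]
        rw [h3]; exact h2

/-- the invariant -/
def Inv {k : ℕ} (σ : V k ≃ V k) (b : ℕ → Bool) : Prop :=
  ∀ i : Fin k, ∃ h s t : Fin 8, σ (some (i, 1)) = some (i, h) ∧ σ (some (i, 3)) = some (i, s) ∧
    σ (some (i, 4)) = some (i, t) ∧ (b i.val, h, s, t) ∈ okl (mode (σ none) i)

lemma adjl_of {k : ℕ} {i : Fin k} {l l' : Fin 8}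
    (h : yr (some (i, l)) (some (i, l')) ∨ yr (some (i, l')) (some (i, l))) : adjl l l' = true := by
  rcases h with (⟨_, h⟩ | h) | (⟨_, h⟩ | h)
  · simp [adjl, h]
  · omega
  · simp [adjl, h]
  · omega

/-- The walker and the key of the gadget `i` exchange their places. -/
lemma kmove {k : ℕ} (L : V k) (b : ℕ → Bool) (h s t : Fin k → Fin 8) (i : Fin k)
    (hok : ∀ i, (b i.val, h i, s i, t i) ∈ okl (mode L i))
    (hY : yr (some (i, h i)) L ∨ yr L (some (i, h i))) :
    ∃ l : Fin 8, L = some (i, l) ∧ ∃ b', Tog b b' ∧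
      (b' i.val, l, s i, t i) ∈ okl (mode (some (i, h i)) i) ∧
      ∀ i' : Fin k, i' ≠ i → (b' i'.val, h i', s i', t i') ∈ okl (mode (some (i, h i)) i') := by
  have hi := hok i
  rcases L with _ | ⟨j, l⟩
  · exfalso
    have h1 : i.val = 0 ∧ (h i = 0 ∨ h i = 7) := by
      rcases hY with h1 | h1
      · exact absurd h1 (by simp [yr])
      · exact h1
    simp only [mode] at hi
    rcases h1.2 with h2 | h2
    · rw [h2] at hi; simp [okl] at hi
    · rw [h2] at hi; simp [okl] at hi
  · have hij : i = j ∧ adjl (h i) l = true := by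
      rcases hY with (⟨h1, h2⟩ | ⟨h1, h2⟩) | (⟨h1, h2⟩ | ⟨h1, h2⟩)
      · exact ⟨h1, by simp [adjl, h2]⟩
      · exfalso
        rcases h2 with ⟨h2, rfl⟩ | ⟨h2, rfl⟩
        · rw [mode_nine j i 7 (by omega) (by simp), h2] at hi
          simp [okl] at hi
        · rw [mode_ten j i 0 ⟨by simp, by omega⟩, h2] at hi
          simp [okl] at hi
      · exact ⟨h1.symm, by simp [adjl, h2]⟩
      · exfalso
        rw [mode_after j i l (by omega)] at hi
        rcases h2 with ⟨_, h2⟩ | ⟨_, h2⟩
        · rw [h2] at hi
          simp [okl] at hi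
        · rw [h2] at hi
          simp [okl] at hi
    obtain ⟨rfl, hadj⟩ := hij
    rw [mode_self i i l rfl] at hi
    obtain ⟨harea, b2, hb2, hb3⟩ := swap_c l _ hi hadj
    dsimp only at harea hb2 hb3
    refine ⟨l, rfl, ?_⟩
    rcases hb3 with hb3 | ⟨hb3, hl2⟩
    · refine ⟨b, Or.inl rfl, ?_, fun i' hi' => ?_⟩
      · rw [mode_self i i (h i) rfl, ← hb3]
        exact hb2
      · rw [mode_ne i i' l (h i) (fun e => hi' (Fin.ext e)) harea]
        exact hok i'
    · refine ⟨flip b i.val, Or.inr ⟨i.val, adm_of b h s t i l hok hl2, rfl⟩, ?_, fun i' hi' => ?_⟩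
      · rw [mode_self i i (h i) rfl, flip_same, ← hb3]
        exact hb2
      · rw [mode_ne i i' l (h i) (fun e => hi' (Fin.ext e)) harea,
          flip_ne b (fun e => hi' (Fin.ext e))]
        exact hok i'

/-- The invariant is preserved by a move of the token `a` and its parent. -/
lemma inv_step {k : ℕ} (σ τ : V k ≃ V k) (b : ℕ → Bool) (hI : Inv σ b) (a : V k)
    (ha : a ≠ par a) (hY : yr (σ a) (σ (par a)) ∨ yr (σ (par a)) (σ a))
    (h1 : τ a = σ (par a)) (h2 : τ (par a) = σ a)
    (h3 : ∀ v, v ≠ a → v ≠ par a → τ v = σ v) : ∃ b', Tog b b' ∧ Inv τ b' := by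
  choose h s t hh hs ht hok using hI
  rcases a with _ | ⟨i, l⟩
  · exact absurd rfl ha
  by_cases hl3 : l = 3
  · subst hl3
    have hp : par (some (i, (3 : Fin 8))) = some (i, 1) := by simp [par]
    rw [hp] at hY h1 h2 h3
    rw [hh, hs] at hY
    refine ⟨b, Or.inl rfl, fun i' => ?_⟩
    have hn : τ none = σ none := h3 none (by simp) (by simp)
    rw [hn]
    by_cases hi : i' = i
    · subst hi
      refine ⟨s i', h i', t i', by rw [h2, hs], by rw [h1, hh],
        by rw [h3 _ (by simp) (by simp), ht], ?_⟩
      exact swap_s _ _ (hok i') (adjl_of hY)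
    · refine ⟨h i', s i', t i', ?_, ?_, ?_, hok i'⟩
      · rw [h3 _ (by simp) (by simp [hi]), hh]
      · rw [h3 _ (by simp [hi]) (by simp), hs]
      · rw [h3 _ (by simp) (by simp), ht]
  by_cases hl4 : l = 4
  · subst hl4
    have hp : par (some (i, (4 : Fin 8))) = some (i, 1) := by simp [par]
    rw [hp] at hY h1 h2 h3
    rw [hh, ht] at hY
    refine ⟨b, Or.inl rfl, fun i' => ?_⟩
    have hn : τ none = σ none := h3 none (by simp) (by simp)
    rw [hn]
    by_cases hi : i' = i
    · subst hi
      refine ⟨t i', s i', h i', by rw [h2, ht], by rw [h3 _ (by simp) (by simp), hs],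
        by rw [h1, hh], ?_⟩
      exact swap_t _ _ (hok i') (adjl_of hY)
    · refine ⟨h i', s i', t i', ?_, ?_, ?_, hok i'⟩
      · rw [h3 _ (by simp) (by simp [hi]), hh]
      · rw [h3 _ (by simp) (by simp), hs]
      · rw [h3 _ (by simp [hi]) (by simp), ht]
  have hp : par (some (i, l)) = none := by simp [par, hl3, hl4]
  rw [hp] at hY h1 h2 h3
  by_cases hl1 : l = 1
  · subst hl1
    rw [hh] at hY
    obtain ⟨l', hL, b', hT, hk1, hk2⟩ := kmove (σ none) b h s t i hok hY
    refine ⟨b', hT, fun i' => ?_⟩
    rw [h2, hh]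
    by_cases hi : i' = i
    · subst hi
      refine ⟨l', s i', t i', by rw [h1, hL], by rw [h3 _ (by simp) (by simp), hs],
        by rw [h3 _ (by simp) (by simp), ht], hk1⟩
    · refine ⟨h i', s i', t i', ?_, ?_, ?_, hk2 i' hi⟩
      · rw [h3 _ (by simp [hi]) (by simp), hh]
      · rw [h3 _ (by simp) (by simp), hs]
      · rw [h3 _ (by simp) (by simp), ht]
  · have hn : ∀ i', σ (some (i, l)) ≠ some (i', h i') ∧ σ (some (i, l)) ≠ some (i', s i') ∧
        σ (some (i, l)) ≠ some (i', t i') := by
      intro i'
      rw [← hh, ← hs, ← ht]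
      refine ⟨fun e => ?_, fun e => ?_, fun e => ?_⟩
      · have := σ.injective e
        simp [hl1] at this
      · have := σ.injective e
        simp [hl3] at this
      · have := σ.injective e
        simp [hl4] at this
    obtain ⟨b', hT, hk⟩ := cmove (σ none) (σ (some (i, l))) hY.symm b h s t hok hn
    refine ⟨b', hT, fun i' => ?_⟩
    rw [h2]
    refine ⟨h i', s i', t i', ?_, ?_, ?_, hk i'⟩
    · rw [h3 _ (by simp; intro _ e; exact hl1 e.symm) (by simp), hh]
    · rw [h3 _ (by simp; intro _ e; exact hl3 e.symm) (by simp), hs]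
    · rw [h3 _ (by simp; intro _ e; exact hl4 e.symm) (by simp), ht]

lemma inv_adj {k : ℕ} {σ τ : V k ≃ V k} {b : ℕ → Bool} (hI : Inv σ b)
    (hA : (FS (T k) (Y k)).Adj σ τ) : ∃ b', Tog b b' ∧ Inv τ b' := by
  obtain ⟨a, c, hT, hY, h1, h2, h3⟩ := hA
  rw [T, SimpleGraph.fromRel_adj] at hT
  rw [Y, SimpleGraph.fromRel_adj] at hY
  obtain ⟨hne, rfl | rfl⟩ := hT
  · exact inv_step σ τ b hI a hne hY.2 h1 h2 h3
  · exact inv_step σ τ b hI c hne.symm hY.2.symm h2 h1 fun v hv1 hv2 => h3 v hv2 hv1

lemma inv_walk {k m : ℕ} {σ τ : V k ≃ V k} (p : (FS (T k) (Y k)).Walk σ τ) :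
    ∀ {b : ℕ → Bool}, Inv σ b → ∃ b', Inv τ b' ∧ |rank m b' - rank m b| ≤ p.length := by
  induction p with
  | nil => intro b hI; exact ⟨b, hI, by simp⟩
  | cons hA p ih =>
    intro b hI
    obtain ⟨b1, hT, hI1⟩ := inv_adj hI hA
    obtain ⟨b2, hI2, h2⟩ := ih hI1
    refine ⟨b2, hI2, ?_⟩
    have h1 : |rank m b1 - rank m b| ≤ 1 := by
      rcases hT with rfl | ⟨j, hj, rfl⟩
      · simp
      · exact rank_flip hj m
    rw [SimpleGraph.Walk.length_cons]
    push_cast
    rw [abs_le] at h1 h2 ⊢
    constructor <;> linarith [h1.1, h1.2, h2.1, h2.2]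

/-! ### The graph `T` is a tree -/

lemma T_adj {k : ℕ} {a : V k} (h : a ≠ par a) : (T k).Adj a (par a) := by
  rw [T, SimpleGraph.fromRel_adj]
  exact ⟨h, Or.inl rfl⟩

lemma T_reach {k : ℕ} (a : V k) : (T k).Reachable a none := by
  have h1 : ∀ (i : Fin k) (l : Fin 8), l ≠ 3 → l ≠ 4 → (T k).Reachable (some (i, l)) none := by
    intro i l h3 h4
    have hp : par (some (i, l)) = none := by simp [par, h3, h4]
    have := T_adj (a := some (i, l)) (by rw [hp]; simp)
    rw [hp] at this
    exact this.reachable
  rcases a with _ | ⟨i, l⟩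
  · exact SimpleGraph.Reachable.refl _
  · by_cases h : l = 3 ∨ l = 4
    · have hp : par (some (i, l)) = some (i, 1) := by simp [par, h]
      have hne : some (i, l) ≠ par (some (i, l)) := by
        rw [hp]
        rcases h with rfl | rfl <;> simp
      have := T_adj hne
      rw [hp] at this
      exact this.reachable.trans (h1 i 1 (by decide) (by decide))
    · rw [not_or] at h
      exact h1 i l h.1 h.2

lemma T_tree (k : ℕ) : (T k).IsTree := by
  have hc : (T k).Connected := by
    rw [SimpleGraph.connected_iff]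
    exact ⟨fun a b => (T_reach a).trans (T_reach b).symm, ⟨none⟩⟩
  rw [SimpleGraph.isTree_iff_connected_and_card]
  refine ⟨hc, le_antisymm ?_ hc.card_vert_le_card_edgeSet_add_one⟩
  let f : Fin k × Fin 8 → Sym2 (V k) := fun x => s(some x, par (some x))
  have h1 : (T k).edgeSet ⊆ Set.range f := by
    intro e
    induction e using Sym2.ind with
    | _ a b =>
      intro he
      rw [SimpleGraph.mem_edgeSet, T, SimpleGraph.fromRel_adj] at he
      rcases he with ⟨hne, rfl | rfl⟩
      · rcases a with _ | x
        · exact absurd rfl hne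
        · exact ⟨x, rfl⟩
      · rcases b with _ | x
        · exact absurd rfl hne
        · exact ⟨x, Sym2.eq_swap⟩
  have h2 : Nat.card (T k).edgeSet ≤ Nat.card (Set.range f) :=
    Nat.card_mono (Set.finite_range f) h1
  have h3 : Nat.card (Set.range f) ≤ Nat.card (Fin k × Fin 8) := Finite.card_range_le f
  have h4 : Nat.card (V k) = Nat.card (Fin k × Fin 8) + 1 := by
    rw [Nat.card_eq_fintype_card, Nat.card_eq_fintype_card, Fintype.card_option]
  omega

/-! ### Reachability -/

/-- the bijection with the bits `b` -/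
def rho (k : ℕ) (b : ℕ → Bool) : V k ≃ V k :=
  Equiv.optionCongr (Equiv.prodShear (Equiv.refl (Fin k))
    fun i => if b i.val then Equiv.swap (1 : Fin 8) 2 else Equiv.refl _)

lemma rho_none (k : ℕ) (b : ℕ → Bool) : rho k b none = none := rfl

lemma rho_some {k : ℕ} (b : ℕ → Bool) (i : Fin k) (l : Fin 8) :
    rho k b (some (i, l)) = some (i, if b i.val then Equiv.swap (1 : Fin 8) 2 l else l) := by
  unfold rho
  cases h : b i.val <;> simp [h]

lemma step {k : ℕ} (b : ℕ → Bool) (A : V k ≃ V k) (P P' a a' : V k) (hY : yr P P' ∨ yr P' P)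
    (hT : par a = a' ∨ par a' = a) (h1 : A (rho k b a) = P) (h2 : A (rho k b a') = P')
    (hne : P ≠ P') :
    (FS (T k) (Y k)).Adj ((rho k b).trans A) ((rho k b).trans (A.trans (Equiv.swap P P'))) := by
  refine ⟨a, a', ?_, ?_, ?_, ?_, ?_⟩
  · rw [T, SimpleGraph.fromRel_adj]
    exact ⟨fun e => hne (by rw [← h1, ← h2, e]), hT⟩
  · rw [Equiv.trans_apply, Equiv.trans_apply, h1, h2, Y, SimpleGraph.fromRel_adj]
    exact ⟨hne, hY⟩
  · simp only [Equiv.trans_apply, h1, h2, Equiv.swap_apply_left]
  · simp only [Equiv.trans_apply, h1, h2, Equiv.swap_apply_right]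
  · intro v hv hv'
    simp only [Equiv.trans_apply]
    apply Equiv.swap_apply_of_ne_of_ne
    · rw [← h1]
      intro e
      exact hv ((rho k b).injective (A.injective e))
    · rw [← h2]
      intro e
      exact hv' ((rho k b).injective (A.injective e))

lemma rho_other {k : ℕ} (b : ℕ → Bool) (i : Fin k) (l : Fin 8) (h1 : l ≠ 1) (h2 : l ≠ 2) :
    rho k b (some (i, l)) = some (i, l) := by
  rw [rho_some, Equiv.swap_apply_of_ne_of_ne h1 h2, ite_self]

lemma rho_false {k : ℕ} (b : ℕ → Bool) (i : Fin k) (l : Fin 8) (h : b i.val = false) :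
    rho k b (some (i, l)) = some (i, l) := by
  rw [rho_some, h]
  simp

lemma rho_one {k : ℕ} (b : ℕ → Bool) (i : Fin k) (h : b i.val = true) :
    rho k b (some (i, 1)) = some (i, 2) := by
  rw [rho_some, h]
  simp

lemma rho_two {k : ℕ} (b : ℕ → Bool) (i : Fin k) (h : b i.val = true) :
    rho k b (some (i, 2)) = some (i, 1) := by
  rw [rho_some, h]
  simp

lemma sw {k : ℕ} {i g : Fin k} (h : i ≠ g) (x y l : Fin 8) :
    Equiv.swap (some (g, x)) (some (g, y)) (some (i, l)) = some (i, l) :=
  Equiv.swap_apply_of_ne_of_ne (by simp [h]) (by simp [h])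

/-- The walker goes to the entrance of the gadget `j`. -/
lemma entrance {k : ℕ} (j : ℕ) : ∀ hj : j < k, ∃ A : V k ≃ V k,
    (∀ b : ℕ → Bool, (∀ i < j, b i = false) →
      (FS (T k) (Y k)).Reachable (rho k b) ((rho k b).trans A)) ∧
    A none = some (⟨j, hj⟩, 7) ∧
    ∀ (i : Fin k) (l : Fin 8), j ≤ i.val → (i, l) ≠ (⟨j, hj⟩, 7) → A (some (i, l)) = some (i, l) := by
  induction j with
  | zero =>
    intro hj
    refine ⟨(Equiv.refl _).trans (Equiv.swap none (some (⟨0, hj⟩, 7))), ?_, ?_, ?_⟩
    · intro b _
      exact (step b (Equiv.refl _) none (some (⟨0, hj⟩, 7)) none (some (⟨0, hj⟩, 7))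
        (Or.inl (by simp [yr])) (Or.inr (by simp [par])) rfl
        (by rw [rho_other _ _ _ (by decide) (by decide)]; rfl) (by simp)).reachable
    · simp
    · intro i l _ hne
      simp only [Equiv.trans_apply, Equiv.refl_apply]
      exact Equiv.swap_apply_of_ne_of_ne (by simp) (by simpa using hne)
  | succ j ih =>
    intro hj
    obtain ⟨A, hA1, hA2, hA3⟩ := ih (by omega)
    set g : Fin k := ⟨j, by omega⟩ with hg
    set g' : Fin k := ⟨j + 1, hj⟩ with hg'
    have hgg : g ≠ g' := by
      intro e
      have := congrArg Fin.val e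
      simp [hg, hg'] at this
    have hgl : ∀ l : Fin 8, l ≠ 7 → A (some (g, l)) = some (g, l) := fun l hl =>
      hA3 g l (le_refl _) (by simp [hl])
    have hgl' : ∀ l : Fin 8, A (some (g', l)) = some (g', l) := fun l =>
      hA3 g' l (by show j ≤ j + 1; omega) (by simp [hgg.symm])
    -- the four moves
    set A1 := A.trans (Equiv.swap (some (g, 1)) (some (g, 3))) with hA1'
    set A2 := A1.trans (Equiv.swap (some (g, 7)) (some (g, 5))) with hA2'
    set A3 := A2.trans (Equiv.swap (some (g, 5)) (some (g, 3))) with hA3'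
    set A4 := A3.trans (Equiv.swap (some (g, 3)) (some (g', 7))) with hA4'
    have n1 : A1 none = some (g, 7) := by
      rw [hA1', Equiv.trans_apply, hA2]
      exact Equiv.swap_apply_of_ne_of_ne (by simp) (by simp)
    have n2 : A2 none = some (g, 5) := by
      rw [hA2', Equiv.trans_apply, n1, Equiv.swap_apply_left]
    have n3 : A3 none = some (g, 3) := by
      rw [hA3', Equiv.trans_apply, n2, Equiv.swap_apply_left]
    have n4 : A4 none = some (g', 7) := by
      rw [hA4', Equiv.trans_apply, n3, Equiv.swap_apply_left]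
    have k1 : A1 (some (g, 1)) = some (g, 3) := by
      rw [hA1', Equiv.trans_apply, hgl 1 (by decide), Equiv.swap_apply_left]
    have k2 : A2 (some (g, 1)) = some (g, 3) := by
      rw [hA2', Equiv.trans_apply, k1]
      exact Equiv.swap_apply_of_ne_of_ne (by simp) (by simp)
    have f5 : A1 (some (g, 5)) = some (g, 5) := by
      rw [hA1', Equiv.trans_apply, hgl 5 (by decide)]
      exact Equiv.swap_apply_of_ne_of_ne (by simp) (by simp)
    have o4 : ∀ (i : Fin k) (l : Fin 8), i ≠ g → j ≤ i.val → A3 (some (i, l)) = some (i, l) := by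
      intro i l hi hji
      rw [hA3', Equiv.trans_apply, hA2', Equiv.trans_apply, hA1', Equiv.trans_apply,
        hA3 i l hji (by simp [hi]), sw hi, sw hi, sw hi]
    refine ⟨A4, ?_, n4, ?_⟩
    · intro b hb
      have hbj : b g.val = false := hb j (Nat.lt_succ_self j)
      have r0 := hA1 b fun i hi => hb i (by omega)
      have r1 := step b A (some (g, 1)) (some (g, 3)) (some (g, 1)) (some (g, 3))
        (Or.inl (Or.inl ⟨rfl, by decide⟩)) (Or.inr (by simp [par]))
        (by rw [rho_false b g 1 hbj, hgl 1 (by decide)])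
        (by rw [rho_false b g 3 hbj, hgl 3 (by decide)]) (by simp)
      have r2 := step b A1 (some (g, 7)) (some (g, 5)) none (some (g, 5))
        (Or.inl (Or.inl ⟨rfl, by decide⟩)) (Or.inr (by simp [par]))
        (by rw [rho_none, n1]) (by rw [rho_false b g 5 hbj, f5]) (by simp)
      have r3 := step b A2 (some (g, 5)) (some (g, 3)) none (some (g, 1))
        (Or.inl (Or.inl ⟨rfl, by decide⟩)) (Or.inr (by simp [par]))
        (by rw [rho_none, n2]) (by rw [rho_false b g 1 hbj, k2]) (by simp)
      have r4 := step b A3 (some (g, 3)) (some (g', 7)) none (some (g', 7))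
        (Or.inl (Or.inr ⟨rfl, Or.inl ⟨rfl, rfl⟩⟩)) (Or.inr (by simp [par]))
        (by rw [rho_none, n3])
        (by rw [rho_other b g' 7 (by decide) (by decide),
              o4 g' 7 hgg.symm (by show j ≤ j + 1; omega)]) (by simp)
      exact r0.trans (r1.reachable.trans (r2.reachable.trans (r3.reachable.trans r4.reachable)))
    · intro i l hi hne
      have hig : i ≠ g := by
        intro e
        rw [e] at hi
        simp [hg] at hi
      rw [hA4', Equiv.trans_apply, o4 i l hig (by omega)]
      exact Equiv.swap_apply_of_ne_of_ne (by simp [hig]) (by simpa using hne)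

/-- The walker goes to the switch of the gadget `m`. -/
lemma to_switch {k : ℕ} (m : Fin k) : ∃ B : V k ≃ V k,
    (∀ b : ℕ → Bool, Adm b m.val →
      (FS (T k) (Y k)).Reachable (rho k b) ((rho k b).trans B)) ∧
    B none = some (m, 0) ∧ ∀ l : Fin 8, l ≠ 0 → B (some (m, l)) = some (m, l) := by
  obtain ⟨m, hm⟩ := m
  rcases m with _ | j
  · refine ⟨(Equiv.refl _).trans (Equiv.swap none (some (⟨0, hm⟩, 0))), ?_, ?_, ?_⟩
    · intro b _
      exact (step b (Equiv.refl _) none (some (⟨0, hm⟩, 0)) none (some (⟨0, hm⟩, 0))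
        (Or.inl (by simp [yr])) (Or.inr (by simp [par])) rfl
        (by rw [rho_other _ _ _ (by decide) (by decide)]; rfl) (by simp)).reachable
    · simp
    · intro l hne
      simp only [Equiv.trans_apply, Equiv.refl_apply]
      exact Equiv.swap_apply_of_ne_of_ne (by simp) (by simpa using hne)
  · obtain ⟨A, hA1, hA2, hA3⟩ := entrance (k := k) j (by omega)
    set g : Fin k := ⟨j, by omega⟩ with hg
    set g' : Fin k := ⟨j + 1, hm⟩ with hg'
    have hgg : g ≠ g' := by
      intro e
      have := congrArg Fin.val e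
      simp [hg, hg'] at this
    have hgl : ∀ l : Fin 8, l ≠ 7 → A (some (g, l)) = some (g, l) := fun l hl =>
      hA3 g l (le_refl _) (by simp [hl])
    have hgl' : ∀ l : Fin 8, A (some (g', l)) = some (g', l) := fun l =>
      hA3 g' l (by show j ≤ j + 1; omega) (by simp [hgg.symm])
    set A1 := A.trans (Equiv.swap (some (g, 2)) (some (g, 4))) with hA1'
    set A2 := A1.trans (Equiv.swap (some (g, 7)) (some (g, 6))) with hA2'
    set A3 := A2.trans (Equiv.swap (some (g, 6)) (some (g, 4))) with hA3'
    set A4 := A3.trans (Equiv.swap (some (g, 4)) (some (g', 0))) with hA4'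
    have n1 : A1 none = some (g, 7) := by
      rw [hA1', Equiv.trans_apply, hA2]
      exact Equiv.swap_apply_of_ne_of_ne (by simp) (by simp)
    have n2 : A2 none = some (g, 6) := by
      rw [hA2', Equiv.trans_apply, n1, Equiv.swap_apply_left]
    have n3 : A3 none = some (g, 4) := by
      rw [hA3', Equiv.trans_apply, n2, Equiv.swap_apply_left]
    have n4 : A4 none = some (g', 0) := by
      rw [hA4', Equiv.trans_apply, n3, Equiv.swap_apply_left]
    have k1 : A1 (some (g, 2)) = some (g, 4) := by
      rw [hA1', Equiv.trans_apply, hgl 2 (by decide), Equiv.swap_apply_left]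
    have k2 : A2 (some (g, 2)) = some (g, 4) := by
      rw [hA2', Equiv.trans_apply, k1]
      exact Equiv.swap_apply_of_ne_of_ne (by simp) (by simp)
    have f5 : A1 (some (g, 6)) = some (g, 6) := by
      rw [hA1', Equiv.trans_apply, hgl 6 (by decide)]
      exact Equiv.swap_apply_of_ne_of_ne (by simp) (by simp)
    have o4 : ∀ l : Fin 8, A3 (some (g', l)) = some (g', l) := by
      intro l
      rw [hA3', Equiv.trans_apply, hA2', Equiv.trans_apply, hA1', Equiv.trans_apply, hgl' l,
        sw hgg.symm, sw hgg.symm, sw hgg.symm]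
    refine ⟨A4, ?_, n4, ?_⟩
    · intro b hb
      have hbj : b g.val = true := hb.1 j rfl
      have r0 := hA1 b fun i hi => hb.2 i (by show i + 1 < j + 1; omega)
      have r1 := step b A (some (g, 2)) (some (g, 4)) (some (g, 1)) (some (g, 4))
        (Or.inl (Or.inl ⟨rfl, by decide⟩)) (Or.inr (by simp [par]))
        (by rw [rho_one b g hbj, hgl 2 (by decide)])
        (by rw [rho_other b g 4 (by decide) (by decide), hgl 4 (by decide)]) (by simp)
      have r2 := step b A1 (some (g, 7)) (some (g, 6)) none (some (g, 6))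
        (Or.inl (Or.inl ⟨rfl, by decide⟩)) (Or.inr (by simp [par]))
        (by rw [rho_none, n1])
        (by rw [rho_other b g 6 (by decide) (by decide), f5]) (by simp)
      have r3 := step b A2 (some (g, 6)) (some (g, 4)) none (some (g, 1))
        (Or.inl (Or.inl ⟨rfl, by decide⟩)) (Or.inr (by simp [par]))
        (by rw [rho_none, n2]) (by rw [rho_one b g hbj, k2]) (by simp)
      have r4 := step b A3 (some (g, 4)) (some (g', 0)) none (some (g', 0))
        (Or.inl (Or.inr ⟨rfl, Or.inr ⟨rfl, rfl⟩⟩)) (Or.inr (by simp [par]))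
        (by rw [rho_none, n3])
        (by rw [rho_other b g' 0 (by decide) (by decide), o4 0]) (by simp)
      exact r0.trans (r1.reachable.trans (r2.reachable.trans (r3.reachable.trans r4.reachable)))
    · intro l hne
      rw [hA4', Equiv.trans_apply, o4 l]
      exact Equiv.swap_apply_of_ne_of_ne (by simp [hgg.symm]) (by simpa using hne)

lemma adm_flip {b : ℕ → Bool} {j : ℕ} (h : Adm b j) : Adm (flip b j) j :=
  ⟨fun i hi => by rw [flip_ne b (by omega)]; exact h.1 i hi,
    fun i hi => by rw [flip_ne b (by omega)]; exact h.2 i hi⟩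

/-- Bit `m` is changed. -/
lemma toggle {k : ℕ} (m : Fin k) (b : ℕ → Bool) (h : Adm b m.val) :
    (FS (T k) (Y k)).Reachable (rho k b) (rho k (flip b m.val)) := by
  obtain ⟨B, hB1, hB2, hB3⟩ := to_switch m
  have r1 := hB1 b h
  have r2 := hB1 (flip b m.val) (adm_flip h)
  -- the tokens at the places `1` and `2`
  obtain ⟨x, y, hx, hy, hpx, hpy⟩ : ∃ x y : V k, rho k b x = some (m, 1) ∧
      rho k b y = some (m, 2) ∧ par x = none ∧ par y = none := by
    cases hb : b m.val
    · exact ⟨some (m, 1), some (m, 2), rho_false b m 1 hb, rho_false b m 2 hb, by simp [par],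
        by simp [par]⟩
    · exact ⟨some (m, 2), some (m, 1), rho_two b m hb, rho_one b m hb, by simp [par],
        by simp [par]⟩
  have b1 := hB3 1 (by decide)
  have b2 := hB3 2 (by decide)
  have s1 := step b B (some (m, 0)) (some (m, 1)) none x (Or.inl (Or.inl ⟨rfl, by decide⟩))
    (Or.inr hpx) (by rw [rho_none, hB2]) (by rw [hx, b1]) (by simp)
  have s2 := step b (B.trans (Equiv.swap (some (m, 0)) (some (m, 1)))) (some (m, 1)) (some (m, 2))
    none y (Or.inl (Or.inl ⟨rfl, by decide⟩)) (Or.inr hpy)
    (by rw [rho_none, Equiv.trans_apply, hB2, Equiv.swap_apply_left])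
    (by rw [hy, Equiv.trans_apply, b2]; exact Equiv.swap_apply_of_ne_of_ne (by simp) (by simp))
    (by simp)
  have s3 := step b ((B.trans (Equiv.swap (some (m, 0)) (some (m, 1)))).trans
      (Equiv.swap (some (m, 1)) (some (m, 2)))) (some (m, 2)) (some (m, 0))
    none x (Or.inr (Or.inl ⟨rfl, by decide⟩)) (Or.inr hpx)
    (by rw [rho_none, Equiv.trans_apply, Equiv.trans_apply, hB2, Equiv.swap_apply_left,
          Equiv.swap_apply_left])
    (by rw [hx, Equiv.trans_apply, Equiv.trans_apply, b1, Equiv.swap_apply_right]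
        exact Equiv.swap_apply_of_ne_of_ne (by simp) (by simp))
    (by simp)
  have hend : (rho k b).trans (((B.trans (Equiv.swap (some (m, 0)) (some (m, 1)))).trans
      (Equiv.swap (some (m, 1)) (some (m, 2)))).trans (Equiv.swap (some (m, 2)) (some (m, 0)))) =
      (rho k (flip b m.val)).trans B := by
    have c1 : ∀ P : V k, Equiv.swap (some (m, 2)) (some (m, 0)) (Equiv.swap (some (m, 1))
        (some (m, 2)) (Equiv.swap (some (m, 0)) (some (m, 1)) P)) =
        Equiv.swap (some (m, (1 : Fin 8))) (some (m, 2)) P := by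
      intro P
      by_cases h0 : P = some (m, 0)
      · rw [h0, Equiv.swap_apply_left, Equiv.swap_apply_left, Equiv.swap_apply_left]
        exact (Equiv.swap_apply_of_ne_of_ne (by simp) (by simp)).symm
      by_cases h1 : P = some (m, 1)
      · rw [h1, Equiv.swap_apply_right, Equiv.swap_apply_left]
        rw [Equiv.swap_apply_of_ne_of_ne (a := some (m, (1 : Fin 8))) (b := some (m, 2))
          (x := some (m, 0)) (by simp) (by simp), Equiv.swap_apply_right]
      by_cases h2 : P = some (m, 2)
      · rw [h2, Equiv.swap_apply_of_ne_of_ne (a := some (m, (0 : Fin 8))) (b := some (m, 1))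
          (x := some (m, 2)) (by simp) (by simp), Equiv.swap_apply_right]
        exact Equiv.swap_apply_of_ne_of_ne (by simp) (by simp)
      rw [Equiv.swap_apply_of_ne_of_ne h0 h1, Equiv.swap_apply_of_ne_of_ne h1 h2,
        Equiv.swap_apply_of_ne_of_ne h2 h0]
    have c2 : ∀ Q : V k, Equiv.swap (some (m, (1 : Fin 8))) (some (m, 2)) (B Q) =
        B (Equiv.swap (some (m, (1 : Fin 8))) (some (m, 2)) Q) := by
      intro Q
      by_cases h1 : Q = some (m, 1)
      · rw [h1, b1, Equiv.swap_apply_left, b2]
      by_cases h2 : Q = some (m, 2)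
      · rw [h2, b2, Equiv.swap_apply_right, b1]
      rw [Equiv.swap_apply_of_ne_of_ne h1 h2]
      apply Equiv.swap_apply_of_ne_of_ne
      · intro e
        rw [← b1] at e
        exact h1 (B.injective e)
      · intro e
        rw [← b2] at e
        exact h2 (B.injective e)
    have c3 : ∀ v : V k, Equiv.swap (some (m, (1 : Fin 8))) (some (m, 2)) (rho k b v) =
        rho k (flip b m.val) v := by
      intro v
      rcases v with _ | ⟨i, l⟩
      · rw [rho_none, rho_none]
        exact Equiv.swap_apply_of_ne_of_ne (by simp) (by simp)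
      · by_cases hi : i = m
        · subst hi
          rw [rho_some, rho_some, flip_same]
          have key : ∀ (c : Bool) (l : Fin 8), Equiv.swap (some (i, (1 : Fin 8))) (some (i, 2))
              (some (i, if c then Equiv.swap (1 : Fin 8) 2 l else l)) =
              some (i, if (!c) then Equiv.swap (1 : Fin 8) 2 l else l) := by
            intro c l
            by_cases h1 : l = 1
            · subst h1
              cases c
              · simp
              · simp
            by_cases h2 : l = 2
            · subst h2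
              cases c
              · simp
              · simp
            rw [Equiv.swap_apply_of_ne_of_ne h1 h2, ite_self, ite_self]
            exact Equiv.swap_apply_of_ne_of_ne (by simp [h1]) (by simp [h2])
          exact key _ _
        · rw [rho_some, rho_some, flip_ne b (fun e => hi (Fin.ext e))]
          exact sw hi _ _ _
    apply Equiv.ext
    intro v
    simp only [Equiv.trans_apply]
    rw [c1, c2, c3]
  rw [hend] at s3
  exact r1.trans (s1.reachable.trans (s2.reachable.trans (s3.reachable.trans r2.symm)))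

/-- All bijections `rho k b` are in one component. -/
lemma all_reach {k : ℕ} (m : ℕ) : m ≤ k → ∀ b b' : ℕ → Bool, (∀ i, m ≤ i → b i = b' i) →
    (FS (T k) (Y k)).Reachable (rho k b) (rho k b') := by
  induction m with
  | zero =>
    intro _ b b' h
    have : b = b' := funext fun i => h i (Nat.zero_le i)
    rw [this]
  | succ m ih =>
    intro hm b b' h
    by_cases hb : b m = b' m
    · refine ih (by omega) b b' fun i hi => ?_
      rcases Nat.eq_or_lt_of_le hi with rfl | hi2
      · exact hb
      · exact h i hi2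
    · let b1 : ℕ → Bool := fun i => if i < m then decide (i + 1 = m) else b i
      have hadm : Adm b1 m := by
        constructor
        · intro i hi
          have h1 : i < m := by omega
          simp [b1, h1, hi]
        · intro i hi
          have h1 : i < m := by omega
          have h2 : i + 1 ≠ m := by omega
          simp [b1, h1, h2]
      have r1 := ih (by omega) b b1 fun i hi => by
        have h1 : ¬ i < m := by omega
        simp [b1, h1]
      have hmk : m < k := by omega
      have r2 := toggle (k := k) ⟨m, hmk⟩ b1 hadm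
      have r3 := ih (by omega) (flip b1 m) b' fun i hi => by
        rcases Nat.eq_or_lt_of_le hi with rfl | hi2
        · rw [flip_same]
          have h1 : b1 m = b m := by simp [b1]
          rw [h1]
          revert hb
          cases b m <;> cases b' m <;> simp
        · have h1 : ¬ i < m := by omega
          rw [flip_ne b1 (show i ≠ m by omega), ← h i hi2]
          simp [b1, h1]
      exact r1.trans (r2.trans r3)

/-! ### Conclusion -/

lemma inv_rho (k : ℕ) (b : ℕ → Bool) : Inv (rho k b) b := by
  intro i
  rw [rho_none]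
  cases hb : b i.val
  · exact ⟨1, 3, 4, rho_false b i 1 hb, rho_false b i 3 hb, rho_false b i 4 hb, by
      simp [mode, okl]⟩
  · exact ⟨2, 3, 4, rho_one b i hb, rho_other b i 3 (by decide) (by decide),
      rho_other b i 4 (by decide) (by decide), by simp [mode, okl]⟩

lemma inv_rho_unique {k : ℕ} {b b' : ℕ → Bool} (h : Inv (rho k b) b') (i : ℕ) (hi : i < k) :
    b' i = b i := by
  obtain ⟨x, s, t, h1, _, _, h4⟩ := h ⟨i, hi⟩
  rw [rho_none] at h4
  cases hb : b i
  · rw [rho_false b ⟨i, hi⟩ 1 hb] at h1
    have : x = 1 := by simpa using h1.symm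
    subst this
    simp [mode, okl] at h4
    tauto
  · rw [rho_one b ⟨i, hi⟩ hb] at h1
    have : x = 2 := by simpa using h1.symm
    subst this
    simp [mode, okl] at h4
    tauto

/-- the last configuration of bits in the Gray code -/
def last (k : ℕ) : ℕ → Bool := fun i => decide (i + 1 = k)

lemma rank_last (k : ℕ) : rank k (last k) = 2 ^ k - 1 := by
  cases k with
  | zero => rfl
  | succ k =>
    rw [rank, rank_zero (m := k) fun i hi => by simp [last]; omega]
    simp [last]

lemma walk_length {k : ℕ} (p : (FS (T k) (Y k)).Walk (rho k fun _ => false) (rho k (last k))) :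
    2 ^ k ≤ p.length + 1 := by
  obtain ⟨b', h1, h2⟩ := inv_walk (m := k) p (inv_rho k fun _ => false)
  rw [rank_congr fun i hi => inv_rho_unique h1 i hi, rank_last, rank_zero (fun i _ => rfl),
    sub_zero, abs_le] at h2
  have h3 : (2 : ℤ) ^ k ≤ p.length + 1 := by linarith [h2.2]
  exact_mod_cast h3

/-- transport of friends-and-strangers graphs -/
def isoFS {α β : Type} (e : α ≃ β) (X Z : SimpleGraph α) :
    FS X Z ≃g FS (X.map e.toEmbedding) (Z.map e.toEmbedding) where
  toFun σ := e.symm.trans (σ.trans e)
  invFun τ := e.trans (τ.trans e.symm)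
  left_inv σ := by ext; simp
  right_inv τ := by ext; simp
  map_rel_iff' := by
    intro σ τ
    constructor
    · rintro ⟨a, b, h1, h2, h3, h4, h5⟩
      refine ⟨e.symm a, e.symm b, ?_, ?_, ?_, ?_, ?_⟩
      · have := (SimpleGraph.map_adj_apply (G := X) (f := e.toEmbedding) (a := e.symm a)
          (b := e.symm b)).mp (by simpa using h1)
        exact this
      · have := (SimpleGraph.map_adj_apply (G := Z) (f := e.toEmbedding) (a := σ (e.symm a))
          (b := σ (e.symm b))).mp (by simpa using h2)
        exact this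
      · have := h3
        simpa using this
      · have := h4
        simpa using this
      · intro v hv hv'
        have := h5 (e v) (fun h => hv (by rw [← h]; simp)) (fun h => hv' (by rw [← h]; simp))
        simpa using this
    · rintro ⟨a, b, h1, h2, h3, h4, h5⟩
      refine ⟨e a, e b, ?_, ?_, ?_, ?_, ?_⟩
      · exact (SimpleGraph.map_adj_apply (G := X) (f := e.toEmbedding) (a := a) (b := b)).mpr h1
      · have := (SimpleGraph.map_adj_apply (G := Z) (f := e.toEmbedding) (a := σ a)
          (b := σ b)).mpr h2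
        simpa using this
      · simp [h3]
      · simp [h4]
      · intro v hv hv'
        have := h5 (e.symm v) (fun h => hv (by rw [← h]; simp)) (fun h => hv' (by rw [← h]; simp))
        simp [this]

/-- For every `k` there are a tree and a graph with `8 k + 1` vertices such that some component of
the friends-and-strangers graph has diameter at least `2 ^ k - 1`. -/
theorem exponential (k : ℕ) : ∃ T Y : SimpleGraph (Fin (8 * k + 1)), T.IsTree ∧
    ∃ σ τ : Fin (8 * k + 1) ≃ Fin (8 * k + 1), (FS T Y).Reachable σ τ ∧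
      2 ^ k ≤ (FS T Y).dist σ τ + 1 := by
  have e : V k ≃ Fin (8 * k + 1) := Fintype.equivFinOfCardEq (by simp; ring)
  let I := isoFS e (T k) (Y k)
  have hr : (FS (T k) (Y k)).Reachable (rho k fun _ => false) (rho k (last k)) :=
    all_reach k le_rfl _ _ fun i hi => by simp [last]; omega
  have hr2 : (FS ((T k).map e.toEmbedding) ((Y k).map e.toEmbedding)).Reachable
      (I (rho k fun _ => false)) (I (rho k (last k))) := hr.map I.toHom
  refine ⟨(T k).map e.toEmbedding, (Y k).map e.toEmbedding,
    (SimpleGraph.Iso.map e (T k)).isTree_iff.mp (T_tree k), I (rho k fun _ => false),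
    I (rho k (last k)), hr2, ?_⟩
  obtain ⟨p, hp⟩ := hr2.exists_walk_length_eq_dist
  have h1 := walk_length ((p.map I.symm.toHom).copy (by simp) (by simp))
  rw [SimpleGraph.Walk.length_copy, SimpleGraph.Walk.length_map] at h1
  rw [← hp]
  exact h1

/-- The diameters of the components of the friends-and-strangers graphs `FS(T, Y)`, `T` a tree, are
not polynomially bounded. -/
theorem result : ¬ ∃ K : ℕ, ∀ n : ℕ, 2 ≤ n → ∀ T Y : SimpleGraph (Fin n), T.IsTree →
    ∀ σ τ : Fin n ≃ Fin n, (FS T Y).Reachable σ τ → (FS T Y).dist σ τ ≤ n ^ K := by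
  rintro ⟨K, hK⟩
  obtain ⟨k, hk1, hk2⟩ : ∃ k : ℕ, 1 ≤ k ∧ (8 * k + 1) ^ K + 1 < 2 ^ k := by
    have h1 := tendsto_pow_const_div_const_pow_of_one_lt K (one_lt_two (α := ℝ))
    have h2 := h1.eventually (gt_mem_nhds (show (0 : ℝ) < 1 / (2 * 9 ^ K) by positivity))
    obtain ⟨k, hk, hk1⟩ := (h2.and (Filter.eventually_ge_atTop 1)).exists
    refine ⟨k, hk1, ?_⟩
    have hk1' : (1 : ℝ) ≤ k := by exact_mod_cast hk1
    rw [div_lt_div_iff₀ (by positivity) (by positivity)] at hk
    have h3 : ((8 * k + 1 : ℕ) : ℝ) ^ K ≤ (9 : ℝ) ^ K * k ^ K := by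
      rw [← mul_pow]
      apply pow_le_pow_left₀ (by positivity)
      push_cast
      linarith
    have h4 : (1 : ℝ) ≤ ((8 * k + 1 : ℕ) : ℝ) ^ K := one_le_pow₀ (by push_cast; linarith)
    have h5 : (((8 * k + 1) ^ K + 1 : ℕ) : ℝ) < ((2 ^ k : ℕ) : ℝ) := by
      push_cast at h3 h4 ⊢
      linarith
    exact_mod_cast h5
  obtain ⟨T, Y, hT, σ, τ, hr, hd⟩ := exponential k
  have := hK (8 * k + 1) (by omega) T Y hT σ τ hr
  omega

end Pool.Agent.Results.MP_5b8c2d_co.ExponentialDiameter
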